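import Pool.Agent.V1157.UR.Defs
import Pool.Agent.V1157.FG.Defs

/-!
# Finite groups acting on the homology of Brauer-Manin complexes: definitions
-/

open CategoryTheory AlgebraicGeometry

universe u v w z

namespace Pool.Agent.V1157.BM

open Pool.Agent.H914 Pool.Agent.H914.VarClass Pool.Agent.H914.VarClass.Obj Pool.Agent.W492.BB
  Pool.Agent.V1157.UR

variable {k : Type u} [Field k] {𝒱 : VarClass k} {C : TheoryData.{u, v, 0} 𝒱 ℚ} {K : Type w}
  [Field K]

/-- The pull-back `f^* t`, the action of the transpose of the graph of `f`. -/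
noncomputable def back (P : CorrFunctor.{u, v, w, z} C K) {X Y : 𝒱.Obj} (f : X ⟶ Y) (t : P.W Y) : P.W X :=
  P.map (C.down (Obj.lift f (𝟙 X)) 1) t

/-- The class `g_* t = (g⁻¹)^* t`, for an action `α` of the group `G` on `X`. -/
noncomputable def mv (P : CorrFunctor.{u, v, w, z} C K) {G : Type} [Group G] {X : 𝒱.Obj} (α : G →* End X) (g : G)
    (t : P.W X) : P.W X := back P (α g⁻¹ : X ⟶ X) t

variable (P : CorrFunctor.{u, v, w, z} C K) (Z I : ∀ X : 𝒱.Obj, Submodule K (P.W X)) (n : ℕ)

/-- Subspaces of the spaces `P(X)` stable under correspondences of degree zero between varieties of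
dimension `n`. -/
def Stable (I : ∀ X : 𝒱.Obj, Submodule K (P.W X)) : Prop :=
  ∀ (X Y : 𝒱.Obj) (Γ : C.A (X.prod Y)) (t : P.W X), X.dim = n → Y.dim = n → C.Deg n Γ →
    t ∈ I X → P.map Γ t ∈ I Y

/-- Exactness: the kernel `Z X` is contained in the image `I X`, for all `X` of dimension `n`. -/
def Exact : Prop := ∀ (X : 𝒱.Obj) (t : P.W X), X.dim = n → t ∈ Z X → t ∈ I X

/-- For every action of the finite group `G` on a variety `X` of dimension `n` the element `f` of
the group algebra `K[G]` has rank at most `D` on `Z X` modulo `I X`. -/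
def RankAtMost {G : Type} [Group G] [Fintype G] (f : G → K) (D : ℕ) : Prop :=
  ∀ (X : 𝒱.Obj) (α : G →* End X) (t : Fin (D + 1) → P.W X), X.dim = n → (∀ i, t i ∈ Z X) →
    ∃ c : Fin (D + 1) → K, c ≠ 0 ∧ ∑ i, c i • ∑ g, f g • mv P α g (t i) ∈ I X

/-- Finite groups acting on varieties `X` of dimension `n` act on `Z X` modulo `I X` through abelian
quotients. -/
def ActAbelian : Prop :=
  ∀ (G : Type) [Group G] [Finite G] (X : 𝒱.Obj) (α : G →* End X) (g h : G) (t : P.W X),
    X.dim = n → t ∈ Z X → mv P α (g * h) t - mv P α (h * g) t ∈ I X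

/-- Elements `g 1, …, g d` of finite groups acting on varieties `X` of dimension `n` satisfy, on
`Z X` modulo `I X`, the identity `∑ c(σ) g_{σ(1)} g_{σ(2)} ⋯ g_{σ(d)} = 0`, the sum over all
permutations `σ`. -/
def ActIdentity (d : ℕ) (c : Equiv.Perm (Fin d) → K) : Prop :=
  ∀ (G : Type) [Group G] [Finite G] (X : 𝒱.Obj) (α : G →* End X) (g : Fin d → G) (t : P.W X),
    X.dim = n → t ∈ Z X → ∑ σ, c σ • mv P α (List.ofFn fun i => g (σ i)).prod t ∈ I X

end Pool.Agent.V1157.BM
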