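import Pool.Agent.V1157.BM.Defs
import Pool.Agent.V1157.UR.Main
import Pool.Agent.V1157.FG.Core

/-!
# Finite groups acting on the homology of Brauer-Manin complexes
-/

open CategoryTheory AlgebraicGeometry

universe u v w z

namespace Pool.Agent.V1157.BM

open Pool.Agent.H914 Pool.Agent.H914.VarClass Pool.Agent.H914.VarClass.Obj Pool.Agent.W492.BB
  Pool.Agent.W550.Corr Pool.Agent.TH133 Pool.Agent.Y148.BB Pool.Agent.V1157.UR
open Pool.Agent.V1157.FG (HasEquivariantPower EP exists_ep core exists_words sum_words words_ne)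
open Pool.Agent.V1157.RC (tp_graph graph_mem)

set_option linter.unusedSectionVars false

variable {k : Type u} [Field k] {𝒱 : VarClass k} {C : TheoryData.{u, v, 0} 𝒱 ℚ}
  [hC : IsChowProj C] {K : Type w} [Field K] {P : CorrFunctor.{u, v, w, z} C K} {n : ℕ}
  {Z I : ∀ X : 𝒱.Obj, Submodule K (P.W X)} {X Y T : 𝒱.Obj}

lemma graph_graph (f : X ⟶ Y) (g : Y ⟶ T) : C.comp (C.graph f) (C.graph g) = C.graph (f ≫ g) := by
  have e1 : Obj.lift (𝟙 X) f ≫ prodMap (𝟙 X) g = Obj.lift (𝟙 X) (f ≫ g) := by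
    apply prod_ext <;> simp
  rw [comp_graph, TheoryData.graph, ← C.push_comp, e1, TheoryData.graph]

lemma cog_cog (f : X ⟶ Y) (g : Y ⟶ T) :
    C.comp (C.cograph g) (C.cograph f) = C.cograph (f ≫ g) := by
  rw [← tp_graph, ← tp_graph, ← tp_graph, ← graph_graph, tp_comp C (ch_comm C)]

omit hC in
lemma back_eq (f : X ⟶ Y) (t : P.W Y) : back P f t = P.act (C.cograph f) t := rfl

lemma cog_mem (hY : Y.dim = n) (f : X ⟶ Y) : C.Deg n (C.cograph f) :=
  gr_congr (by rw [hY]) (cograph_mem (C := C) f)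

lemma back_back (hP : IsBirational P n) (hX : X.dim = n) (hY : Y.dim = n) (hT : T.dim = n)
    (f : X ⟶ Y) (g : Y ⟶ T) (t : P.W T) : back P f (back P g t) = back P (f ≫ g) t := by
  have h1 := hP.comp (C.cograph g) (C.cograph f) t hT hY hX (cog_mem hT g) (cog_mem hY f)
  rw [cog_cog] at h1
  exact h1.symm

lemma mv_mem (hI : Stable P n I) (hX : X.dim = n) {G : Type} [Group G] (α : G →* End X) (g : G)
    {t : P.W X} (ht : t ∈ I X) : mv P α g t ∈ I X :=
  hI X X (C.cograph (α g⁻¹ : X ⟶ X)) t hX hX (cog_mem hX _) ht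

/-- **If an element of the group algebra of a finite group has bounded rank on the homology, then
the complexes are exact.** -/
theorem exact_of_rank [CharZero K] (hP : IsBirational P n) (hZ : Stable P n Z) (hI : Stable P n I)
    {G : Type} [Group G] [Fintype G]
    (hV : ∀ (M : ℕ) (S : 𝒱.Obj), S.dim = n → HasEquivariantPower C n G M S) {f : G → K}
    (hf : f ≠ 0) {D : ℕ} (hD : RankAtMost P Z I n f D) : Exact P Z I n := by
  intro S t hS ht
  obtain ⟨V, α, p, a, b, κ, h⟩ := exists_ep hS (hV (D + 1) S hS)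
  obtain ⟨c, hc, hc2⟩ := hD V α (fun m => back P (p 1 m) t) h.dimV
    (fun m => hZ S V _ t hS h.dimV (cog_mem hS (p 1 m)) ht)
  have hgr : ∀ (g : G) (m : ℕ), C.Deg n (C.graph (p g m)) := by
    intro g m
    have h1 := graph_mem (C := C) (p g m)
    rw [hS] at h1
    exact h1
  refine core (M := D + 1) (fun g m => P.act (C.graph (p g m))) (I V) (I S)
    (fun g m v hv => hI V S _ v h.dimV hS (hgr g m) hv) hf (fun g m => P.act (C.cograph (p g m)) t)
    (t := t) (fun g g' m m' hne => ?_) (κ := (κ : K)) (by exact_mod_cast h.hκ)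
    (fun g m => push_pull_eq (h.pw1 g m.2) hP (i := 0) (by omega) t) hc ?_
  · have h1 := push_pull_ne (h.pw m.2 m'.2 (fun e => hne (by
      rw [Prod.mk.injEq] at e ⊢
      exact ⟨e.1, Fin.ext e.2⟩))) hP (i := 0) (j := 1) (by omega) (by omega) (by omega) t
    have h2 : P.act (C.graph (p g' m')) (P.act (C.cograph (p g m)) t) = 0 := h1
    rw [h2]
    exact Submodule.zero_mem _
  · have e1 : ∀ (g : G) (m : Fin (D + 1)),
        mv P α g (back P (p 1 m) t) = P.act (C.cograph (p g m)) t := by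
      intro g m
      have h1 := back_back hP h.dimV h.dimV hS (α g⁻¹ : V ⟶ V) (p 1 m) t
      rw [h.act _ _ m m.2, inv_inv, mul_one] at h1
      exact h1
    simp only [e1] at hc2
    exact hc2

theorem main [CharZero K] (hP : IsBirational P n) (hZ : Stable P n Z) (hI : Stable P n I)
    (hV : ∀ (G : Type) [Group G] [Finite G] (M : ℕ) (S : 𝒱.Obj), S.dim = n →
      HasEquivariantPower C n G M S) :
    List.TFAE [Exact P Z I n,
      ∃ (G : Type) (_ : Group G) (_ : Fintype G) (f : G → K) (D : ℕ), f ≠ 0 ∧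
        RankAtMost P Z I n f D,
      ActAbelian P Z I n,
      ∃ (d : ℕ) (c : Equiv.Perm (Fin d) → K), c ≠ 0 ∧ ActIdentity P Z I n d c] := by
  classical
  tfae_have 1 → 2 := by
    intro h
    refine ⟨Unit, inferInstance, inferInstance, fun _ => 1, 0, ?_, ?_⟩
    · intro h0
      exact one_ne_zero (congrFun h0 ())
    · intro X α t hX ht
      refine ⟨fun _ => 1, fun h0 => one_ne_zero (congrFun h0 0), ?_⟩
      exact Submodule.sum_mem _ fun i _ => Submodule.smul_mem _ _
        (Submodule.sum_mem _ fun g _ => Submodule.smul_mem _ _ (mv_mem hI hX α g (h X _ hX (ht i))))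
  tfae_have 2 → 1 := by
    rintro ⟨G, _, _, f, D, hf, hD⟩
    exact exact_of_rank hP hZ hI (hV G) hf hD
  tfae_have 1 → 3 := by
    intro h G _ _ X α g g' t hX ht
    exact Submodule.sub_mem _ (mv_mem hI hX α _ (h X t hX ht)) (mv_mem hI hX α _ (h X t hX ht))
  tfae_have 3 → 2 := by
    intro h
    refine ⟨Equiv.Perm (Fin 3), inferInstance, inferInstance,
      fun x => (if Equiv.swap 0 1 * Equiv.swap 1 2 = x then 1 else 0) -
        (if Equiv.swap 1 2 * Equiv.swap 0 1 = x then 1 else 0), 0, ?_, ?_⟩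
    · intro h0
      have h1 := congrFun h0 (Equiv.swap 0 1 * Equiv.swap 1 2)
      simp only [Pi.zero_apply] at h1
      rw [if_pos trivial, if_neg (by decide), sub_zero] at h1
      exact one_ne_zero h1
    · intro X α t hX ht
      refine ⟨fun _ => 1, fun h0 => one_ne_zero (congrFun h0 0), ?_⟩
      refine Submodule.sum_mem _ fun i _ => Submodule.smul_mem _ _ ?_
      simp_rw [sub_smul, ite_smul, one_smul, zero_smul]
      rw [Finset.sum_sub_distrib, Finset.sum_ite_eq, Finset.sum_ite_eq,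
        if_pos (Finset.mem_univ _), if_pos (Finset.mem_univ _)]
      exact h (Equiv.Perm (Fin 3)) X α _ _ (t i) hX (ht i)
  tfae_have 1 → 4 := by
    intro h
    refine ⟨0, fun _ => 1, fun h0 => one_ne_zero (congrFun h0 1), ?_⟩
    intro G _ _ X α g t hX ht
    exact Submodule.sum_mem _ fun σ _ => Submodule.smul_mem _ _ (mv_mem hI hX α _ (h X t hX ht))
  tfae_have 4 → 2 := by
    rintro ⟨d, c, hc, h⟩
    obtain ⟨G, _, _, g, hg⟩ := exists_words d
    refine ⟨G, inferInstance, inferInstance,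
      fun x => ∑ σ, if (List.ofFn fun i => g (σ i)).prod = x then c σ else 0, 0, words_ne hg hc, ?_⟩
    intro X α t hX ht
    refine ⟨fun _ => 1, fun h0 => one_ne_zero (congrFun h0 0), ?_⟩
    refine Submodule.sum_mem _ fun i _ => Submodule.smul_mem _ _ ?_
    rw [sum_words (fun σ : Equiv.Perm (Fin d) => (List.ofFn fun i => g (σ i)).prod) c
      (fun x => mv P α x (t i))]
    exact h G X α g (t i) hX (ht i)
  tfae_finish

end Pool.Agent.V1157.BM
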